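import Mathlib
import Pool.Agent.Helper40.CX.Good2
import Pool.Agent.Helper40.CX.SepDeg

namespace CX

/-!
Project KP, block QUAD: the reflection of a quadratic extension of a field of rational functions.
-/

set_option autoImplicit false

namespace Pool.Agent.Helper15.KP

open Polynomial

universe u

/-- The field of the quotients `p(r) / q(r)`. -/
private def quo56 {k L Ω : Type u} [Field k] [Field L] [Algebra k L] [Field Ω] [Algebra k Ω]
    (κ : L →ₐ[k] Ω) (r : Ω) : IntermediateField k Ω where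
  carrier := {z | ∃ p q : L[X], q.eval₂ (κ : L →+* Ω) r ≠ 0 ∧
    z * q.eval₂ (κ : L →+* Ω) r = p.eval₂ (κ : L →+* Ω) r}
  mul_mem' := by
    rintro a b ⟨p, q, hq, h⟩ ⟨p', q', hq', h'⟩
    refine ⟨p * p', q * q', ?_, ?_⟩
    · rw [eval₂_mul]
      exact mul_ne_zero hq hq'
    · rw [eval₂_mul, eval₂_mul, ← h, ← h']
      ring
  add_mem' := by
    rintro a b ⟨p, q, hq, h⟩ ⟨p', q', hq', h'⟩
    refine ⟨p * q' + p' * q, q * q', ?_, ?_⟩
    · rw [eval₂_mul]
      exact mul_ne_zero hq hq'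
    · rw [eval₂_mul, eval₂_add, eval₂_mul, eval₂_mul, ← h, ← h']
      ring
  algebraMap_mem' := by
    intro c
    refine ⟨C (algebraMap k L c), 1, by simp, ?_⟩
    rw [eval₂_one, mul_one, eval₂_C]
    exact (κ.commutes c).symm
  inv_mem' := by
    rintro a ⟨p, q, hq, h⟩
    by_cases ha : a = 0
    · refine ⟨0, 1, by simp, ?_⟩
      rw [ha, inv_zero, zero_mul, eval₂_zero]
    · refine ⟨q, p, ?_, ?_⟩
      · rw [← h]
        exact mul_ne_zero ha hq
      · rw [← h, ← mul_assoc, inv_mul_cancel₀ ha, one_mul]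

theorem exists_refl {k L Ω : Type u} [Field k] [Good k] [Field L] [Algebra k L] [Field Ω] [Algebra k Ω]
    (κ : L →ₐ[k] Ω) (r w : Ω) (htr : ∀ p : L[X], p.eval₂ (κ : L →+* Ω) r = 0 → p = 0) (Q : L[X])
    (hw : w ^ 2 = Q.eval₂ (κ : L →+* Ω) r) (hQ : ∀ g : L[X], g ^ 2 ≠ Q)
    (hgen : IntermediateField.adjoin k (Set.range κ ∪ {r, w}) = ⊤) :
    ∃ R : Ω ≃ₐ[k] Ω, R * R = 1 ∧ R ≠ 1 ∧ (∀ z : L, R (κ z) = κ z) ∧ R r = r ∧ R w = -w ∧
      ∀ z : Ω, R z = z → ∃ p q : L[X], q.eval₂ (κ : L →+* Ω) r ≠ 0 ∧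
        z * q.eval₂ (κ : L →+* Ω) r = p.eval₂ (κ : L →+* Ω) r := by
  have : Good Ω := Good.ext k
  set M := quo56 κ r with hM
  have hκM : ∀ z : L, κ z ∈ M := fun z => ⟨C z, 1, by simp, by simp⟩
  have hrM : r ∈ M := ⟨X, 1, by simp, by simp⟩
  have hwM : w ∉ M := by
    rintro ⟨p, q, hq, h⟩
    have h1 : Q * q ^ 2 = p ^ 2 := by
      rw [← sub_eq_zero]
      apply htr
      rw [eval₂_sub, eval₂_mul, eval₂_pow, eval₂_pow, ← hw, ← h]
      ring
    have h2 : q ∣ p := by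
      rw [← IsIntegrallyClosed.pow_dvd_pow_iff (n := 2) two_ne_zero]
      exact ⟨Q, by rw [← h1, mul_comm]⟩
    obtain ⟨g, rfl⟩ := h2
    have hq0 : q ≠ 0 := by
      rintro rfl
      simp at hq
    apply hQ g
    have h3 : q ^ 2 * g ^ 2 = q ^ 2 * Q := by rw [← mul_pow, ← h1, mul_comm]
    exact mul_left_cancel₀ (pow_ne_zero 2 hq0) h3
  have hw2 : w ^ 2 ∈ M := by
    rw [hw]
    exact ⟨Q, 1, by simp, by simp⟩
  have hpoly : aeval w (X ^ 2 - C (⟨w ^ 2, hw2⟩ : M)) = 0 := by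
    rw [map_sub, map_pow, aeval_X, aeval_C]
    exact sub_self _
  have hmon : (X ^ 2 - C (⟨w ^ 2, hw2⟩ : M)).Monic := monic_X_pow_sub_C _ two_ne_zero
  have hint : IsIntegral M w := ⟨_, hmon, hpoly⟩
  have htop : IntermediateField.adjoin M {w} = ⊤ := by
    rw [← IntermediateField.restrictScalars_eq_top_iff (K := k), eq_top_iff, ← hgen, IntermediateField.adjoin_le_iff]
    rintro z (⟨y, rfl⟩ | hz)
    · exact (IntermediateField.adjoin M {w}).algebraMap_mem (⟨κ y, hκM y⟩ : M)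
    · rcases hz with rfl | hz
      · exact (IntermediateField.adjoin M {w}).algebraMap_mem (⟨z, hrM⟩ : M)
      · rw [Set.mem_singleton_iff] at hz
        rw [hz]
        exact IntermediateField.mem_adjoin_simple_self M w
  have hnat : (minpoly M w).natDegree = 2 := by
    apply le_antisymm
    · have h1 := natDegree_le_of_dvd (minpoly.dvd M w hpoly) hmon.ne_zero
      rwa [natDegree_X_pow_sub_C] at h1
    · rw [minpoly.two_le_natDegree_iff hint]
      rintro ⟨x, hx⟩
      apply hwM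
      rw [← hx]
      exact x.2
  have hfr : Module.finrank M Ω = 2 := by
    rw [← IntermediateField.finrank_top' , ← htop, IntermediateField.adjoin.finrank hint, hnat]
  have : Module.Finite M Ω := Module.finite_of_finrank_pos (by rw [hfr]; norm_num)
  have : Algebra.IsQuadraticExtension M Ω := ⟨hfr⟩
  have : Good M := Good.ext k
  have : Algebra.IsSeparable M Ω := isSep_two hfr
  have : IsGalois M Ω := ⟨⟩
  have hcard : Nat.card (Ω ≃ₐ[M] Ω) = 2 := by rw [IsGalois.card_aut_eq_finrank, hfr]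
  have hbot : w ∉ (⊥ : IntermediateField M Ω) := by
    rintro ⟨x, hx⟩
    apply hwM
    rw [← hx]
    exact x.2
  rw [IsGalois.mem_bot_iff_fixed] at hbot
  push Not at hbot
  obtain ⟨σ, hσ⟩ := hbot
  have hσM : ∀ z ∈ M, σ z = z := fun z hz => σ.commutes (⟨z, hz⟩ : M)
  have hσw : σ w = -w := by
    have h1 : (σ w) ^ 2 = w ^ 2 := by rw [← map_pow, hσM _ hw2]
    rcases sq_eq_sq_iff_eq_or_eq_neg.mp h1 with h | h
    · exact absurd h hσ
    · exact h
  have hσ1 : σ ≠ 1 := by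
    rintro rfl
    exact hσ rfl
  have hσσ : σ * σ = 1 := by
    rw [← pow_two, ← hcard]
    exact pow_card_eq_one'
  refine ⟨σ.restrictScalars k, ?_, ?_, fun z => hσM _ (hκM z), hσM _ hrM, hσw, fun z hz => ?_⟩
  · ext z
    exact AlgEquiv.congr_fun hσσ z
  · intro h
    exact hσ (AlgEquiv.congr_fun h w)
  · have h1 : z ∈ (⊥ : IntermediateField M Ω) := by
      rw [IsGalois.mem_bot_iff_fixed]
      intro f
      by_cases hf : f = 1
      · rw [hf]; rfl
      · have h2 := (Nat.card_eq_two_iff' (1 : Ω ≃ₐ[M] Ω)).mp hcard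
        rw [h2.unique hf hσ1]
        exact hz
    obtain ⟨x, hx⟩ := h1
    rw [← hx]
    exact x.2

end Pool.Agent.Helper15.KP

end CX
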